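import Pool.Agent.H19.SIF.LogB
import Pool.Agent.H26.SIF.Defs

/-!
# Strongly identity-forcing matrices: the two bounds for `M(n, I_k)`
-/

set_option autoImplicit false

namespace Pool.Agent.H19.Chn

open Finset SIF

/-- The ones of a matrix. -/
def on {n : ℕ} (A : Fin n → Fin n → Bool) : Finset (Fin n × Fin n) :=
  Finset.univ.filter fun p => A p.1 p.2 = true

theorem on_Gd {n k : ℕ} {A : Fin n → Fin n → Bool} (h : StronglyForcing (idMat k) A) :
    Gd k (on A) := by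
  intro e he
  have heA : A e.1 e.2 = true := (Finset.mem_filter.1 he).2
  obtain ⟨r, c, hr, hc, ⟨a, ha⟩, ⟨b, hb⟩, hQ⟩ := h e.1 e.2 heA
  have hab : a = b := by
    have h1 := hQ a b
    rw [ha, hb, heA] at h1
    simpa [idMat] using h1.symm
  refine ⟨Finset.univ.image fun i => (r i, c i), ⟨?_, ?_, ?_⟩, ?_⟩
  · intro f hf
    obtain ⟨i, _, rfl⟩ := Finset.mem_image.1 hf
    refine Finset.mem_filter.2 ⟨Finset.mem_univ _, ?_⟩
    simp only [hQ]
    simp [idMat]
  · rw [Finset.card_image_of_injective, Finset.card_univ, Fintype.card_fin]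
    intro i j hij
    exact hr.injective (Prod.mk.inj hij).1
  · intro f hf g hg hfg hmem
    obtain ⟨i, _, rfl⟩ := Finset.mem_image.1 hf
    obtain ⟨j, _, rfl⟩ := Finset.mem_image.1 hg
    have hij : i ≠ j := by
      rintro rfl
      exact hfg rfl
    have h1 := (Finset.mem_filter.1 hmem).2
    simp only [hQ] at h1
    simp only [idMat, decide_eq_true_eq] at h1
    exact hij h1
  · refine Finset.mem_image.2 ⟨a, Finset.mem_univ _, ?_⟩
    rw [ha, hab, hb]

theorem exists_max {n k : ℕ} : ∃ A : Fin n → Fin n → Bool,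
    StronglyForcing (idMat k) A ∧ (on A).card = maxOnes n (idMat k) := by
  have hbdd : BddAbove {m : ℕ | ∃ A : Fin n → Fin n → Bool,
      StronglyForcing (idMat k) A ∧ ones A = m} := by
    refine ⟨Fintype.card (Fin n × Fin n), ?_⟩
    rintro m ⟨A, _, rfl⟩
    exact Finset.card_le_univ _
  have hne : {m : ℕ | ∃ A : Fin n → Fin n → Bool,
      StronglyForcing (idMat k) A ∧ ones A = m}.Nonempty :=
    ⟨_, fun _ _ => false, fun i j h => absurd h (by simp), rfl⟩
  obtain ⟨A, hA, hAm⟩ := Nat.sSup_mem hne hbdd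
  exact ⟨A, hA, hAm⟩

theorem on_sub {n : ℕ} (A : Fin n → Fin n → Bool) :
    on A ⊆ (Finset.univ : Finset (Fin n)) ×ˢ (Finset.univ : Finset (Fin n)) := by
  intro e _
  simp

theorem chain_max {n k : ℕ} (hk : 2 ≤ k) (hkn : k ≤ n) (l : ℕ) :
    (maxOnes n (idMat k) : ℤ) * ((n.choose (l + 1) : ℤ) - ((k - 1).choose (l + 1) : ℤ)) ≤
      (n.choose (l + 1) : ℤ) * ((n : ℤ) - k + 1) * ((n : ℤ) - k + 1 + l) := by
  obtain ⟨A, hA, hAm⟩ := exists_max (n := n) (k := k)
  obtain ⟨κ, rfl⟩ : ∃ κ, k = κ + 1 := ⟨k - 1, by omega⟩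
  have h := lev l κ (on A) Finset.univ Finset.univ (on_sub A) (on_Gd hA)
    (by rw [Finset.card_univ, Fintype.card_fin]; omega)
    (by rw [Finset.card_univ, Fintype.card_fin]; omega)
  rw [Finset.card_univ, Fintype.card_fin, hAm] at h
  have e1 : κ + 1 - 1 = κ := rfl
  rw [e1]
  have e2 : (n : ℤ) - ((κ + 1 : ℕ) : ℤ) + 1 = (n : ℤ) - κ := by
    push_cast
    ring
  rw [e2]
  exact h

theorem log_max {n k : ℕ} (hk : 2 ≤ k) (hkn : k ≤ n) :
    (maxOnes n (idMat k) : ℝ) - ((n : ℝ) ^ 2 - (2 * k - 3) * n + k ^ 2 - 2 * k) ≤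
      (3 * k - 5) / 2 * Real.log ((n : ℝ) - k + 1) + k - 1 := by
  obtain ⟨A, hA, hAm⟩ := exists_max (n := n) (k := k)
  obtain ⟨c, rfl⟩ : ∃ c, k = c + 2 := ⟨k - 2, by omega⟩
  have h := log_square c (on A) Finset.univ Finset.univ (on_sub A) (on_Gd hA) n
    (by rw [Finset.card_univ, Fintype.card_fin]) (by rw [Finset.card_univ, Fintype.card_fin])
    (by omega)
  rw [hAm] at h
  have e2 : (n : ℝ) - ((c + 2 : ℕ) : ℝ) + 1 = (n : ℝ) - (c + 1) := by
    push_cast
    ring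
  rw [e2]
  push_cast
  nlinarith [h]

end Pool.Agent.H19.Chn
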