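import Mathlib

/-!
# Strongly identity-forcing matrices: a chain of double counts

`E` is a finite set of pairs (the ones of a matrix) all whose elements lie in an induced matching with
`k` elements.  For a row `p` the elements of `E` which lie in such a matching with a second element in
the row `p` are a set of the same kind, for `k - 1`, with fewer rows and columns.
-/

set_option autoImplicit false

namespace Pool.Agent.H19.Chn

open Finset

set_option linter.unusedSectionVars false

variable {α β : Type*} [DecidableEq α] [DecidableEq β]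

/-- `M` is an induced matching of `E` with `k` elements. -/
def Cp (k : ℕ) (E M : Finset (α × β)) : Prop :=
  M ⊆ E ∧ M.card = k ∧ ∀ a ∈ M, ∀ b ∈ M, a ≠ b → (a.1, b.2) ∉ E

/-- Every element of `E` is in an induced matching with `k` elements. -/
def Gd (k : ℕ) (E : Finset (α × β)) : Prop := ∀ e ∈ E, ∃ M, Cp k E M ∧ e ∈ M

open Classical in
/-- The elements of `E` which lie in an induced matching with `k` elements which has another element
in the row `p`. -/
noncomputable def Rs (k : ℕ) (E : Finset (α × β)) (p : α) : Finset (α × β) :=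
  E.filter fun e => e.1 ≠ p ∧ ∃ M, Cp k E M ∧ e ∈ M ∧ ∃ a ∈ M, a.1 = p

theorem mem_Rs {k : ℕ} {E : Finset (α × β)} {p : α} {e : α × β} :
    e ∈ Rs k E p ↔ e ∈ E ∧ e.1 ≠ p ∧ ∃ M, Cp k E M ∧ e ∈ M ∧ ∃ a ∈ M, a.1 = p := by
  classical
  unfold Rs
  rw [Finset.mem_filter]

theorem Rs_sub {k : ℕ} {E : Finset (α × β)} {p : α} : Rs k E p ⊆ E := fun _ he => (mem_Rs.1 he).1

theorem Rs_Gd (k : ℕ) (E : Finset (α × β)) (p : α) : Gd k (Rs (k + 1) E p) := by
  intro e he
  obtain ⟨heE, hep, M, ⟨hME, hMc, hMi⟩, heM, a, haM, hap⟩ := mem_Rs.1 he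
  refine ⟨M.erase a, ⟨?_, ?_, ?_⟩, ?_⟩
  · intro b hb
    have hbM := Finset.mem_of_mem_erase hb
    have hba : b ≠ a := Finset.ne_of_mem_erase hb
    refine mem_Rs.2 ⟨hME hbM, ?_, M, ⟨hME, hMc, hMi⟩, hbM, a, haM, hap⟩
    intro hbp
    apply hMi a haM b hbM (Ne.symm hba)
    rw [hap, ← hbp]
    exact hME hbM
  · rw [Finset.card_erase_of_mem haM, hMc]
    rfl
  · intro b hb c hc hbc h
    exact hMi b (Finset.mem_of_mem_erase hb) c (Finset.mem_of_mem_erase hc) hbc (Rs_sub h)
  · refine Finset.mem_erase.2 ⟨?_, heM⟩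
    rintro rfl
    exact hep hap

theorem Rs_prod {k : ℕ} {E : Finset (α × β)} {P : Finset α} {Q : Finset β} (hE : E ⊆ P ×ˢ Q)
    (p : α) : Rs k E p ⊆ P.erase p ×ˢ Q.filter fun c => (p, c) ∉ E := by
  intro e he
  obtain ⟨heE, hep, M, ⟨hME, hMc, hMi⟩, heM, a, haM, hap⟩ := mem_Rs.1 he
  have h1 := Finset.mem_product.1 (hE heE)
  refine Finset.mem_product.2 ⟨Finset.mem_erase.2 ⟨hep, h1.1⟩, Finset.mem_filter.2 ⟨h1.2, ?_⟩⟩
  have hae : a ≠ e := by
    rintro rfl
    exact hep hap
  have := hMi a haM e heM hae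
  rwa [hap] at this

theorem fst_inj {k : ℕ} {E M : Finset (α × β)} (hM : Cp k E M) :
    Set.InjOn (Prod.fst : α × β → α) (M : Set (α × β)) := by
  intro a ha b hb hab
  by_contra hne
  apply hM.2.2 a ha b hb hne
  rw [hab]
  exact hM.1 hb

/-- The number of elements of the row `p`. -/
def dg (E : Finset (α × β)) (p : α) : ℕ := (E.filter fun e => e.1 = p).card

theorem sum_dg {E : Finset (α × β)} {P : Finset α} {Q : Finset β} (hE : E ⊆ P ×ˢ Q) :
    ∑ p ∈ P, dg E p = E.card := by
  unfold dg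
  rw [Finset.card_eq_sum_card_fiberwise (f := Prod.fst) (t := P)]
  intro e he
  exact (Finset.mem_product.1 (hE he)).1

theorem dg_add {E : Finset (α × β)} {P : Finset α} {Q : Finset β} (hE : E ⊆ P ×ˢ Q) (p : α) :
    (Q.filter fun c => (p, c) ∉ E).card + dg E p = Q.card := by
  have h1 : dg E p = (Q.filter fun c => (p, c) ∈ E).card := by
    unfold dg
    have h2 : (E.filter fun e => e.1 = p) =
        (Q.filter fun c => (p, c) ∈ E).image fun c => (p, c) := by
      ext e
      simp only [Finset.mem_filter, Finset.mem_image]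
      constructor
      · rintro ⟨he, hep⟩
        refine ⟨e.2, ⟨(Finset.mem_product.1 (hE he)).2, ?_⟩, ?_⟩
        · rw [← hep]
          exact he
        · rw [← hep]
      · rintro ⟨c, ⟨hc, hcE⟩, rfl⟩
        exact ⟨hcE, rfl⟩
    rw [h2, Finset.card_image_of_injective]
    intro c d hcd
    exact (Prod.mk.inj hcd).2
  rw [h1, add_comm]
  exact Finset.card_filter_add_card_filter_not _

/-- A row has at least `k` zeros. -/
theorem row_zeros {k : ℕ} {E : Finset (α × β)} {P : Finset α} {Q : Finset β} (hE : E ⊆ P ×ˢ Q)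
    (hG : Gd (k + 1) E) (hk : k ≤ Q.card) (p : α) :
    k ≤ (Q.filter fun c => (p, c) ∉ E).card := by
  by_cases h : ∃ e ∈ E, e.1 = p
  · obtain ⟨e, he, hep⟩ := h
    obtain ⟨M, hM, heM⟩ := hG e he
    have hsub : (M.erase e).image Prod.snd ⊆ Q.filter fun c => (p, c) ∉ E := by
      intro c hc
      obtain ⟨a, ha, rfl⟩ := Finset.mem_image.1 hc
      have haM := Finset.mem_of_mem_erase ha
      have hae := Finset.ne_of_mem_erase ha
      refine Finset.mem_filter.2 ⟨(Finset.mem_product.1 (hE (hM.1 haM))).2, ?_⟩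
      rw [← hep]
      exact hM.2.2 e heM a haM (Ne.symm hae)
    have hinj : Set.InjOn (Prod.snd : α × β → β) ((M.erase e : Finset (α × β)) : Set (α × β)) := by
      intro a ha b hb hab
      by_contra hne
      apply hM.2.2 a (Finset.mem_of_mem_erase ha) b (Finset.mem_of_mem_erase hb) hne
      rw [← hab]
      exact hM.1 (Finset.mem_of_mem_erase ha)
    have h1 := Finset.card_le_card hsub
    rw [Finset.card_image_of_injOn hinj, Finset.card_erase_of_mem heM, hM.2.1] at h1
    exact h1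
  · have h1 : (Q.filter fun c => (p, c) ∉ E) = Q := by
      rw [Finset.filter_eq_self]
      intro c hc hcE
      exact h ⟨(p, c), hcE, rfl⟩
    rw [h1]
    exact hk

/-- The count: every element is in a matching with `k` further rows. -/
theorem count_le {k : ℕ} {E : Finset (α × β)} {P : Finset α} {Q : Finset β} (hE : E ⊆ P ×ˢ Q)
    (hG : Gd (k + 1) E) : k * E.card ≤ ∑ p ∈ P, (Rs (k + 1) E p).card := by
  classical
  have h1 : ∑ p ∈ P, (Rs (k + 1) E p).card =
      ∑ e ∈ E, (P.filter fun p => e ∈ Rs (k + 1) E p).card := by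
    have h2 : ∀ p, (Rs (k + 1) E p).card = (E.filter fun e => e ∈ Rs (k + 1) E p).card := by
      intro p
      congr 1
      ext e
      rw [Finset.mem_filter]
      exact ⟨fun h => ⟨Rs_sub h, h⟩, fun h => h.2⟩
    simp only [h2]
    simp only [Finset.card_filter]
    exact Finset.sum_comm
  rw [h1, mul_comm, ← smul_eq_mul, ← Finset.sum_const]
  refine Finset.sum_le_sum fun e he => ?_
  obtain ⟨M, hM, heM⟩ := hG e he
  have hsub : (M.erase e).image Prod.fst ⊆ P.filter fun p => e ∈ Rs (k + 1) E p := by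
    intro p hp
    obtain ⟨a, ha, rfl⟩ := Finset.mem_image.1 hp
    have haM := Finset.mem_of_mem_erase ha
    have hae := Finset.ne_of_mem_erase ha
    refine Finset.mem_filter.2 ⟨(Finset.mem_product.1 (hE (hM.1 haM))).1,
      mem_Rs.2 ⟨he, ?_, M, hM, heM, a, haM, rfl⟩⟩
    intro h
    exact hae (fst_inj hM haM heM h.symm)
  have h2 := Finset.card_le_card hsub
  rw [Finset.card_image_of_injOn ((fst_inj hM).mono (by
    intro a ha
    exact Finset.mem_of_mem_erase ha)), Finset.card_erase_of_mem heM, hM.2.1] at h2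
  exact h2

theorem row_le {k : ℕ} {E : Finset (α × β)} {P : Finset α} {Q : Finset β} (hE : E ⊆ P ×ˢ Q)
    (hG : Gd (k + 1) E) (hk : k ≤ Q.card) : E.card ≤ P.card * (Q.card - k) := by
  rw [← sum_dg hE, ← smul_eq_mul, ← Finset.sum_const]
  refine Finset.sum_le_sum fun p _ => ?_
  have h1 := dg_add hE p
  have h2 := row_zeros hE hG hk p
  omega

/-- **The chain of double counts.** -/
theorem lev (l : ℕ) : ∀ (k : ℕ) (E : Finset (α × β)) (P : Finset α) (Q : Finset β), E ⊆ P ×ˢ Q →
    Gd (k + 1) E → k ≤ P.card → k ≤ Q.card →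
    (E.card : ℤ) * ((P.card.choose (l + 1) : ℤ) - (k.choose (l + 1) : ℤ)) ≤
      (P.card.choose (l + 1) : ℤ) * ((P.card : ℤ) - k) * ((Q.card : ℤ) - k + l) := by
  induction l with
  | zero =>
    intro k E P Q hE hG hP hQ
    have h1 : (E.card : ℤ) ≤ P.card * ((Q.card : ℤ) - k) := by
      have := row_le hE hG hQ
      zify [hQ] at this
      exact this
    have h2 : (0 : ℤ) ≤ (P.card : ℤ) - k := by
      have : (k : ℤ) ≤ P.card := by exact_mod_cast hP
      linarith
    simp only [zero_add, Nat.choose_one_right, Nat.cast_zero, add_zero]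
    calc (E.card : ℤ) * ((P.card : ℤ) - k) ≤ P.card * ((Q.card : ℤ) - k) * ((P.card : ℤ) - k) :=
          mul_le_mul_of_nonneg_right h1 h2
      _ = _ := by ring
  | succ l ih =>
    intro k E P Q hE hG hP hQ
    rcases Nat.eq_zero_or_pos k with hk0 | hk0
    · subst hk0
      have h1 : (E.card : ℤ) ≤ P.card * Q.card := by
        have := Finset.card_le_card hE
        rw [Finset.card_product] at this
        exact_mod_cast this
      have h2 : (0 : ℤ) ≤ (P.card.choose (l + 1 + 1) : ℤ) := Nat.cast_nonneg _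
      have h3 : (0 : ℤ) ≤ (P.card : ℤ) * (l + 1) := by positivity
      rw [Nat.choose_zero_succ]
      push_cast
      nlinarith [mul_le_mul_of_nonneg_left h1 h2, mul_nonneg h2 h3]
    · obtain ⟨κ, rfl⟩ : ∃ κ, k = κ + 1 := ⟨k - 1, by omega⟩
      obtain ⟨m', hm'⟩ : ∃ m', P.card = m' + 1 := ⟨P.card - 1, by omega⟩
      have hκm : κ ≤ m' := by omega
      -- the residual of a row
      have hrow : ∀ p ∈ P, ((Rs (κ + 1 + 1) E p).card : ℤ) *
          ((m'.choose (l + 1) : ℤ) - (κ.choose (l + 1) : ℤ)) ≤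
          (m'.choose (l + 1) : ℤ) * ((m' : ℤ) - κ) * ((Q.card : ℤ) - dg E p - κ + l) := by
        intro p hp
        have hz := row_zeros hE hG hQ p
        have hd := dg_add hE p
        have hc : (P.erase p).card = m' := by
          rw [Finset.card_erase_of_mem hp, hm']
          rfl
        have h := ih κ (Rs (κ + 1 + 1) E p) (P.erase p) (Q.filter fun c => (p, c) ∉ E)
          (Rs_prod hE p) (Rs_Gd _ _ _) (by rw [hc]; exact hκm) (by omega)
        rw [hc] at h
        have hd' : ((Q.filter fun c => (p, c) ∉ E).card : ℤ) = (Q.card : ℤ) - dg E p := by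
          have : ((Q.filter fun c => (p, c) ∉ E).card : ℤ) + dg E p = Q.card := by
            exact_mod_cast hd
          linarith
        rw [hd'] at h
        exact h
      have hsum := Finset.sum_le_sum hrow
      rw [← Finset.sum_mul, ← Finset.mul_sum] at hsum
      have hs2 : ∑ p ∈ P, ((Q.card : ℤ) - dg E p - κ + l) =
          (m' + 1) * ((Q.card : ℤ) - κ + l) - E.card := by
        have h1 : ∑ p ∈ P, ((Q.card : ℤ) - dg E p - κ + l) =
            ∑ p ∈ P, ((Q.card : ℤ) - κ + l) - ∑ p ∈ P, (dg E p : ℤ) := by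
          rw [← Finset.sum_sub_distrib]
          exact Finset.sum_congr rfl fun _ _ => by ring
        rw [h1, Finset.sum_const, nsmul_eq_mul, hm']
        have h2 : ∑ p ∈ P, (dg E p : ℤ) = E.card := by exact_mod_cast sum_dg hE
        rw [h2]
        push_cast
        ring
      rw [hs2] at hsum
      have hcnt : ((κ : ℤ) + 1) * E.card ≤ ∑ p ∈ P, ((Rs (κ + 1 + 1) E p).card : ℤ) := by
        exact_mod_cast count_le hE hG
      have ha : ((κ.choose (l + 1) : ℕ) : ℤ) ≤ (m'.choose (l + 1) : ℤ) := by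
        exact_mod_cast Nat.choose_le_choose (l + 1) hκm
      have e1 : ((m' : ℤ) + 1) * (m'.choose (l + 1) : ℤ) =
          ((m' + 1).choose (l + 1 + 1) : ℤ) * ((l : ℤ) + 1 + 1) := by
        exact_mod_cast Nat.add_one_mul_choose_eq m' (l + 1)
      have e2 : ((κ : ℤ) + 1) * (κ.choose (l + 1) : ℤ) =
          ((κ + 1).choose (l + 1 + 1) : ℤ) * ((l : ℤ) + 1 + 1) := by
        exact_mod_cast Nat.add_one_mul_choose_eq κ (l + 1)
      rw [hm']
      set a : ℤ := (m'.choose (l + 1) : ℤ) with hadef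
      set b : ℤ := (κ.choose (l + 1) : ℤ) with hbdef
      set A : ℤ := ((m' + 1).choose (l + 1 + 1) : ℤ) with hAdef
      set B : ℤ := ((κ + 1).choose (l + 1 + 1) : ℤ) with hBdef
      set T : ℤ := (E.card : ℤ) with hTdef
      have h1 : ((κ : ℤ) + 1) * T * (a - b) ≤
          a * ((m' : ℤ) - κ) * (((m' : ℤ) + 1) * ((Q.card : ℤ) - κ + l) - T) :=
        (mul_le_mul_of_nonneg_right hcnt (by linarith)).trans hsum
      have h2 : T * (((m' : ℤ) + 1) * a - ((κ : ℤ) + 1) * b) ≤
          ((m' : ℤ) + 1) * a * ((m' : ℤ) - κ) * ((Q.card : ℤ) - κ + l) := by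
        have e3 : T * (((m' : ℤ) + 1) * a - ((κ : ℤ) + 1) * b) =
            ((κ : ℤ) + 1) * T * (a - b) + a * ((m' : ℤ) - κ) * T := by ring
        have e4 : ((m' : ℤ) + 1) * a * ((m' : ℤ) - κ) * ((Q.card : ℤ) - κ + l) =
            a * ((m' : ℤ) - κ) * (((m' : ℤ) + 1) * ((Q.card : ℤ) - κ + l) - T) +
              a * ((m' : ℤ) - κ) * T := by ring
        rw [e3, e4]
        linarith
      rw [e1, e2] at h2
      have hl : (0 : ℤ) < (l : ℤ) + 1 + 1 := by positivity
      have h3 : (T * (A - B)) * ((l : ℤ) + 1 + 1) ≤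
          (A * ((m' : ℤ) - κ) * ((Q.card : ℤ) - κ + l)) * ((l : ℤ) + 1 + 1) := by
        calc (T * (A - B)) * ((l : ℤ) + 1 + 1) =
            T * (A * ((l : ℤ) + 1 + 1) - B * ((l : ℤ) + 1 + 1)) := by ring
          _ ≤ A * ((l : ℤ) + 1 + 1) * ((m' : ℤ) - κ) * ((Q.card : ℤ) - κ + l) := h2
          _ = _ := by ring
      have h4 := le_of_mul_le_mul_right h3 hl
      push_cast
      have e5 : ((m' : ℤ) + 1 - (κ + 1)) = (m' : ℤ) - κ := by ring
      have e6 : ((Q.card : ℤ) - (κ + 1) + (l + 1)) = (Q.card : ℤ) - κ + l := by ring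
      rw [e5, e6]
      exact h4

end Pool.Agent.H19.Chn
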