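import Pool.Agent.H19.SIF.Level

/-!
# Strongly identity-forcing matrices: the logarithmic bound
-/

set_option autoImplicit false

namespace Pool.Agent.H19.Chn

open Finset

set_option linter.unusedSectionVars false

variable {α β : Type*} [DecidableEq α] [DecidableEq β]

/-! ## Transposition -/

theorem Gd_swap {k : ℕ} {E : Finset (α × β)} (hG : Gd k E) : Gd k (E.image Prod.swap) := by
  intro e he
  obtain ⟨f, hf, rfl⟩ := Finset.mem_image.1 he
  obtain ⟨M, ⟨hME, hMc, hMi⟩, hfM⟩ := hG f hf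
  refine ⟨M.image Prod.swap, ⟨Finset.image_subset_image hME, ?_, ?_⟩,
    Finset.mem_image_of_mem _ hfM⟩
  · rw [Finset.card_image_of_injective _ Prod.swap_injective, hMc]
  · intro a ha b hb hab h
    obtain ⟨a', ha', rfl⟩ := Finset.mem_image.1 ha
    obtain ⟨b', hb', rfl⟩ := Finset.mem_image.1 hb
    obtain ⟨g, hg, hge⟩ := Finset.mem_image.1 h
    have hne : b' ≠ a' := by
      rintro rfl
      exact hab rfl
    apply hMi b' hb' a' ha' hne
    have h1 : g = (b'.1, a'.2) := by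
      have := congrArg Prod.swap hge
      simpa using this
    rw [← h1]
    exact hg

theorem sub_swap {E : Finset (α × β)} {P : Finset α} {Q : Finset β} (hE : E ⊆ P ×ˢ Q) :
    E.image Prod.swap ⊆ Q ×ˢ P := by
  intro e he
  obtain ⟨f, hf, rfl⟩ := Finset.mem_image.1 he
  have := Finset.mem_product.1 (hE hf)
  exact Finset.mem_product.2 ⟨this.2, this.1⟩

theorem card_swap (E : Finset (α × β)) : (E.image Prod.swap).card = E.card :=
  Finset.card_image_of_injective _ Prod.swap_injective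

theorem lev_swap (l k : ℕ) (E : Finset (α × β)) (P : Finset α) (Q : Finset β) (hE : E ⊆ P ×ˢ Q)
    (hG : Gd (k + 1) E) (hP : k ≤ P.card) (hQ : k ≤ Q.card) :
    (E.card : ℤ) * ((Q.card.choose (l + 1) : ℤ) - (k.choose (l + 1) : ℤ)) ≤
      (Q.card.choose (l + 1) : ℤ) * ((Q.card : ℤ) - k) * ((P.card : ℤ) - k + l) := by
  have h := lev l k (E.image Prod.swap) Q P (sub_swap hE) (Gd_swap hG) hQ hP
  rw [card_swap] at h
  exact h

theorem col_le {k : ℕ} {E : Finset (α × β)} {P : Finset α} {Q : Finset β} (hE : E ⊆ P ×ˢ Q)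
    (hG : Gd (k + 1) E) (hk : k ≤ P.card) : E.card ≤ Q.card * (P.card - k) := by
  have h := row_le (sub_swap hE) (Gd_swap hG) hk
  rw [card_swap] at h
  exact h

/-! ## Two inequalities -/

theorem exp_aux (t : ℝ) (ht : 0 ≤ t) : 1 - t ≤ (1 + t) * Real.exp (-(2 * t)) := by
  have hd : ∀ x : ℝ, HasDerivAt (fun t : ℝ => (1 + t) * Real.exp (-(2 * t)) - (1 - t))
      (1 * Real.exp (-(2 * x)) + (1 + x) * (Real.exp (-(2 * x)) * (-(2 * 1))) - (0 - 1)) x := by
    intro x
    have h1 : HasDerivAt (fun t : ℝ => 1 + t) 1 x := by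
      simpa using (hasDerivAt_id x).const_add (1 : ℝ)
    have h2 : HasDerivAt (fun t : ℝ => -(2 * t)) (-(2 * 1)) x :=
      ((hasDerivAt_id x).const_mul (2 : ℝ)).neg
    have h3 : HasDerivAt (fun t : ℝ => (1 : ℝ) - t) (0 - 1) x :=
      (hasDerivAt_const x (1 : ℝ)).sub (hasDerivAt_id x)
    exact (h1.mul h2.exp).sub h3
  have hmono : Monotone (fun t : ℝ => (1 + t) * Real.exp (-(2 * t)) - (1 - t)) := by
    refine monotone_of_deriv_nonneg (fun x => (hd x).differentiableAt) fun x => ?_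
    rw [(hd x).deriv]
    have h1 : (1 + 2 * x) * Real.exp (-(2 * x)) ≤ 1 := by
      have h2 := Real.add_one_le_exp (2 * x)
      have h3 := Real.exp_pos (-(2 * x))
      have h4 : Real.exp (2 * x) * Real.exp (-(2 * x)) = 1 := by
        rw [← Real.exp_add]
        simp
      nlinarith
    nlinarith
  have h := hmono ht
  simp only [mul_zero, neg_zero, Real.exp_zero, add_zero, sub_zero, mul_one, sub_self] at h
  linarith

theorem ratio_le {a n : ℝ} (ha : 0 ≤ a) (hn : 0 < n) (han : a ≤ n) :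
    a / n ≤ Real.exp (-(2 * ((n - a) / (n + a)))) := by
  have hs : 0 < n + a := by linarith
  have h := exp_aux ((n - a) / (n + a)) (div_nonneg (by linarith) hs.le)
  have h1 : 1 - (n - a) / (n + a) = 2 * a / (n + a) := by
    field_simp
    ring
  have h2 : 1 + (n - a) / (n + a) = 2 * n / (n + a) := by
    field_simp
    ring
  rw [h1, h2] at h
  rw [div_le_iff₀ hn]
  have h3 : 2 * a / (n + a) ≤ (2 / (n + a)) * (Real.exp (-(2 * ((n - a) / (n + a)))) * n) := by
    calc 2 * a / (n + a) ≤ 2 * n / (n + a) * Real.exp (-(2 * ((n - a) / (n + a)))) := h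
      _ = _ := by ring
  have h4 : 2 * a / (n + a) = (2 / (n + a)) * a := by ring
  rw [h4] at h3
  exact le_of_mul_le_mul_left h3 (by positivity)

theorem choose_ratio {κ n : ℕ} (h : κ ≤ n) (j : ℕ) :
    κ.choose j * n ^ j ≤ n.choose j * κ ^ j := by
  induction j with
  | zero => simp
  | succ j ih =>
    have h1 : (κ - j) * n ≤ (n - j) * κ := by
      rcases le_or_gt κ j with hj | hj
      · rw [Nat.sub_eq_zero_of_le hj]
        simp
      · have hjn : j ≤ n := by omega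
        zify [hj.le, hjn]
        have : (j : ℤ) * κ ≤ j * n := by
          have h0 : (κ : ℤ) ≤ n := by exact_mod_cast h
          exact mul_le_mul_of_nonneg_left h0 (by positivity)
        linarith
    have h2 : (κ.choose (j + 1) * n ^ (j + 1)) * (j + 1) ≤
        (n.choose (j + 1) * κ ^ (j + 1)) * (j + 1) := by
      calc (κ.choose (j + 1) * n ^ (j + 1)) * (j + 1)
          = (κ.choose (j + 1) * (j + 1)) * n ^ (j + 1) := by ring
        _ = (κ.choose j * (κ - j)) * n ^ (j + 1) := by rw [Nat.choose_succ_right_eq]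
        _ = (κ.choose j * n ^ j) * ((κ - j) * n) := by ring
        _ ≤ (n.choose j * κ ^ j) * ((n - j) * κ) := Nat.mul_le_mul ih h1
        _ = (n.choose j * (n - j)) * κ ^ (j + 1) := by ring
        _ = (n.choose (j + 1) * (j + 1)) * κ ^ (j + 1) := by rw [Nat.choose_succ_right_eq]
        _ = _ := by ring
    exact Nat.le_of_mul_le_mul_right h2 (Nat.succ_pos j)

/-! ## The logarithmic bound for one matrix -/

theorem logb (κ : ℕ) (E : Finset (α × β)) (P : Finset α) (Q : Finset β) (hE : E ⊆ P ×ˢ Q)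
    (hG : Gd (κ + 1) E) (hP : κ < P.card) (hQ : κ < Q.card) :
    (E.card : ℝ) ≤ ((Q.card : ℝ) - κ) * ((P.card : ℝ) - κ) +
      Real.log ((P.card : ℝ) - κ) * ((Q.card : ℝ) + κ) / 2 + Q.card := by
  set n : ℕ := Q.card with hn
  set m : ℕ := P.card with hm
  set u : ℝ := (n : ℝ) - κ with hu
  set v : ℝ := (m : ℝ) - κ with hv
  have hu1 : 1 ≤ u := by
    have : (κ : ℝ) + 1 ≤ n := by exact_mod_cast hQ
    linarith
  have hv1 : 1 ≤ v := by
    have : (κ : ℝ) + 1 ≤ m := by exact_mod_cast hP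
    linarith
  have hκ0 : (0 : ℝ) ≤ κ := Nat.cast_nonneg _
  have hn0 : (0 : ℝ) < n := by
    have : (κ : ℝ) + 1 ≤ n := by exact_mod_cast hQ
    linarith
  set L : ℝ := Real.log v with hL
  have hL0 : 0 ≤ L := Real.log_nonneg hv1
  have hw : (0 : ℝ) < (n : ℝ) + κ := by linarith
  set l : ℕ := ⌊L * ((n : ℝ) + κ) / (2 * u)⌋₊ with hl
  have hl1 : (l : ℝ) ≤ L * ((n : ℝ) + κ) / (2 * u) := Nat.floor_le (by positivity)
  have hl2 : L * ((n : ℝ) + κ) / (2 * u) < (l : ℝ) + 1 := Nat.lt_floor_add_one _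
  have hul : u * l ≤ L * ((n : ℝ) + κ) / 2 := by
    have := mul_le_mul_of_nonneg_left hl1 (show (0 : ℝ) ≤ u by linarith)
    calc u * l ≤ u * (L * ((n : ℝ) + κ) / (2 * u)) := this
      _ = L * ((n : ℝ) + κ) / 2 := by field_simp
  rcases le_or_gt κ l with hκl | hκl
  · -- the trivial bound
    have h1 : (E.card : ℝ) ≤ m * u := by
      have := row_le hE hG hQ.le
      have h2 : ((Q.card - κ : ℕ) : ℝ) = u := by
        rw [Nat.cast_sub hQ.le]
      calc (E.card : ℝ) ≤ ((P.card * (Q.card - κ) : ℕ) : ℝ) := by exact_mod_cast this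
        _ = m * u := by rw [Nat.cast_mul, h2]
    have h2 : (κ : ℝ) ≤ l := by exact_mod_cast hκl
    have h3 : (m : ℝ) = v + κ := by rw [hv]; ring
    have h4 : u * (κ : ℝ) ≤ u * l := mul_le_mul_of_nonneg_left h2 (by linarith)
    rw [h3] at h1
    nlinarith
  · -- the chain of counts
    have h1 : (E.card : ℝ) ≤ n * v := by
      have := col_le hE hG hP.le
      have h2 : ((P.card - κ : ℕ) : ℝ) = v := by
        rw [Nat.cast_sub hP.le]
      calc (E.card : ℝ) ≤ ((Q.card * (P.card - κ) : ℕ) : ℝ) := by exact_mod_cast this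
        _ = n * v := by rw [Nat.cast_mul, h2]
    have h2 : (E.card : ℝ) * ((n.choose (l + 1) : ℝ) - (κ.choose (l + 1) : ℝ)) ≤
        (n.choose (l + 1) : ℝ) * u * (v + l) := by
      have := lev_swap l κ E P Q hE hG hP.le hQ.le
      have h3 : (E.card : ℝ) * ((Q.card.choose (l + 1) : ℝ) - (κ.choose (l + 1) : ℝ)) ≤
          (Q.card.choose (l + 1) : ℝ) * ((Q.card : ℝ) - κ) * ((P.card : ℝ) - κ + l) := by
        exact_mod_cast this
      exact h3
    have hC : (0 : ℝ) < (n.choose (l + 1) : ℝ) := by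
      exact_mod_cast Nat.choose_pos (by omega)
    -- the ratio
    have h3 : (κ.choose (l + 1) : ℝ) * v ≤ (n.choose (l + 1) : ℝ) := by
      have h4 : (κ.choose (l + 1) : ℝ) * (n : ℝ) ^ (l + 1) ≤
          (n.choose (l + 1) : ℝ) * (κ : ℝ) ^ (l + 1) := by
        exact_mod_cast choose_ratio hQ.le (l + 1)
      have h5 : ((κ : ℝ) / n) ^ (l + 1) ≤ 1 / v := by
        have h6 := ratio_le hκ0 hn0 (by linarith : (κ : ℝ) ≤ n)
        have h7 : ((κ : ℝ) / n) ^ (l + 1) ≤
            (Real.exp (-(2 * (((n : ℝ) - κ) / ((n : ℝ) + κ))))) ^ (l + 1) :=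
          pow_le_pow_left₀ (by positivity) h6 _
        rw [← Real.exp_nat_mul] at h7
        refine h7.trans ?_
        have h8 : L ≤ ((l + 1 : ℕ) : ℝ) * (2 * (((n : ℝ) - κ) / ((n : ℝ) + κ))) := by
          have h9 : L * ((n : ℝ) + κ) < ((l : ℝ) + 1) * (2 * u) := by
            rwa [div_lt_iff₀ (by linarith)] at hl2
          have h10 : L < ((l : ℝ) + 1) * (2 * u) / ((n : ℝ) + κ) := by
            rwa [lt_div_iff₀ hw]
          push_cast
          have h11 : ((l : ℝ) + 1) * (2 * u) / ((n : ℝ) + κ) =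
              ((l : ℝ) + 1) * (2 * (((n : ℝ) - κ) / ((n : ℝ) + κ))) := by
            rw [hu]
            ring
          rw [← h11]
          exact h10.le
        have h12 : Real.exp (((l + 1 : ℕ) : ℝ) * -(2 * (((n : ℝ) - κ) / ((n : ℝ) + κ)))) ≤
            Real.exp (-L) := by
          apply Real.exp_le_exp.2
          linarith
        refine h12.trans (le_of_eq ?_)
        rw [Real.exp_neg, hL, Real.exp_log (by linarith), one_div]
      have hn1 : (0 : ℝ) < (n : ℝ) ^ (l + 1) := by positivity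
      have h6 : (κ : ℝ) ^ (l + 1) * v ≤ (n : ℝ) ^ (l + 1) := by
        rw [div_pow, div_le_div_iff₀ hn1 (by linarith), one_mul] at h5
        exact h5
      have h7 : ((κ.choose (l + 1) : ℝ) * v) * (n : ℝ) ^ (l + 1) ≤
          (n.choose (l + 1) : ℝ) * (n : ℝ) ^ (l + 1) := by
        calc ((κ.choose (l + 1) : ℝ) * v) * (n : ℝ) ^ (l + 1)
            = ((κ.choose (l + 1) : ℝ) * (n : ℝ) ^ (l + 1)) * v := by ring
          _ ≤ ((n.choose (l + 1) : ℝ) * (κ : ℝ) ^ (l + 1)) * v :=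
              mul_le_mul_of_nonneg_right h4 (by linarith)
          _ = (n.choose (l + 1) : ℝ) * ((κ : ℝ) ^ (l + 1) * v) := by ring
          _ ≤ (n.choose (l + 1) : ℝ) * (n : ℝ) ^ (l + 1) :=
              mul_le_mul_of_nonneg_left h6 hC.le
      exact le_of_mul_le_mul_right h7 hn1
    have h4 : (E.card : ℝ) * (κ.choose (l + 1) : ℝ) ≤ n * (n.choose (l + 1) : ℝ) := by
      calc (E.card : ℝ) * (κ.choose (l + 1) : ℝ) ≤ (n * v) * (κ.choose (l + 1) : ℝ) :=
            mul_le_mul_of_nonneg_right h1 (Nat.cast_nonneg _)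
        _ = n * ((κ.choose (l + 1) : ℝ) * v) := by ring
        _ ≤ _ := mul_le_mul_of_nonneg_left h3 hn0.le
    have h5 : (E.card : ℝ) * (n.choose (l + 1) : ℝ) ≤
        (u * (v + l) + n) * (n.choose (l + 1) : ℝ) := by
      nlinarith
    have h6 := le_of_mul_le_mul_right h5 hC
    nlinarith

/-- **One step of the count, then the logarithmic bound for the residuals.** -/
theorem logB (c : ℕ) (E : Finset (α × β)) (P : Finset α) (Q : Finset β) (hE : E ⊆ P ×ˢ Q)
    (hG : Gd (c + 2) E) (hP : c + 1 < P.card) (hQ : c + 1 < Q.card) :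
    (E.card : ℝ) * ((P.card : ℝ) + 1 + Real.log ((P.card : ℝ) - (c + 1)) / 2) ≤
      (P.card : ℝ) * (((P.card : ℝ) - (c + 1)) * ((Q.card : ℝ) - c) +
        Real.log ((P.card : ℝ) - (c + 1)) / 2 * ((Q.card : ℝ) + c) + Q.card) := by
  set L : ℝ := Real.log ((P.card : ℝ) - (c + 1)) with hL
  obtain ⟨m', hm'⟩ : ∃ m', P.card = m' + 1 := ⟨P.card - 1, by omega⟩
  have hm'c : ((m' : ℝ) - c) = (P.card : ℝ) - (c + 1) := by
    rw [hm']
    push_cast
    ring
  have hrow : ∀ p ∈ P, ((Rs (c + 1 + 1) E p).card : ℝ) ≤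
      ((Q.card : ℝ) - dg E p - c) * ((P.card : ℝ) - (c + 1)) +
        L * ((Q.card : ℝ) - dg E p + c) / 2 + ((Q.card : ℝ) - dg E p) := by
    intro p hp
    have hz := row_zeros hE hG hQ.le p
    have hd := dg_add hE p
    have hc : (P.erase p).card = m' := by
      rw [Finset.card_erase_of_mem hp, hm']
      rfl
    have h := logb c (Rs (c + 1 + 1) E p) (P.erase p) (Q.filter fun c => (p, c) ∉ E)
      (Rs_prod hE p) (Rs_Gd _ _ _) (by rw [hc]; omega) (by omega)
    rw [hc, hm'c] at h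
    have hd' : ((Q.filter fun c => (p, c) ∉ E).card : ℝ) = (Q.card : ℝ) - dg E p := by
      have : ((Q.filter fun c => (p, c) ∉ E).card : ℝ) + dg E p = Q.card := by
        exact_mod_cast hd
      linarith
    rw [hd'] at h
    exact h
  have hsum := Finset.sum_le_sum hrow
  have hs0 : ∑ p ∈ P, (dg E p : ℝ) = E.card := by exact_mod_cast sum_dg hE
  have hs2 : ∑ p ∈ P, (((Q.card : ℝ) - dg E p - c) * ((P.card : ℝ) - (c + 1)) +
        L * ((Q.card : ℝ) - dg E p + c) / 2 + ((Q.card : ℝ) - dg E p)) =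
      ((P.card : ℝ) * ((Q.card : ℝ) - c) - E.card) * ((P.card : ℝ) - (c + 1)) +
        L / 2 * ((P.card : ℝ) * ((Q.card : ℝ) + c) - E.card) +
        ((P.card : ℝ) * Q.card - E.card) := by
    have h1 : ∀ p ∈ P, (((Q.card : ℝ) - dg E p - c) * ((P.card : ℝ) - (c + 1)) +
        L * ((Q.card : ℝ) - dg E p + c) / 2 + ((Q.card : ℝ) - dg E p)) =
        (((Q.card : ℝ) - c) * ((P.card : ℝ) - (c + 1)) + L / 2 * ((Q.card : ℝ) + c) + Q.card) -
          (((P.card : ℝ) - (c + 1)) + L / 2 + 1) * dg E p := by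
      intro p _
      ring
    rw [Finset.sum_congr rfl h1, Finset.sum_sub_distrib, Finset.sum_const, nsmul_eq_mul,
      ← Finset.mul_sum, hs0]
    ring
  rw [hs2] at hsum
  have hcnt : ((c : ℝ) + 1) * E.card ≤ ∑ p ∈ P, ((Rs (c + 1 + 1) E p).card : ℝ) := by
    exact_mod_cast count_le hE hG
  nlinarith [hcnt.trans hsum]

/-- The square case. -/
theorem log_square (c : ℕ) (E : Finset (α × β)) (P : Finset α) (Q : Finset β) (hE : E ⊆ P ×ˢ Q)
    (hG : Gd (c + 2) E) (n : ℕ) (hP : P.card = n) (hQ : Q.card = n) (hn : c + 1 < n) :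
    (E.card : ℝ) ≤ ((n : ℝ) - (c + 1)) * ((n : ℝ) - (c + 1) + 1) + 2 * c + 1 +
      (3 * c + 1) * (Real.log ((n : ℝ) - (c + 1)) / 2) := by
  have h := logB c E P Q hE hG (by omega) (by omega)
  rw [hP, hQ] at h
  have hu1 : (1 : ℝ) ≤ (n : ℝ) - (c + 1) := by
    have : ((c : ℝ) + 1) + 1 ≤ n := by exact_mod_cast hn
    linarith
  have hh : 0 ≤ Real.log ((n : ℝ) - (c + 1)) / 2 :=
    div_nonneg (Real.log_nonneg hu1) (by norm_num)
  set H : ℝ := Real.log ((n : ℝ) - (c + 1)) / 2 with hH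
  obtain ⟨u, hu⟩ : ∃ u : ℝ, (n : ℝ) = u + (c + 1) := ⟨(n : ℝ) - (c + 1), by ring⟩
  have hc : (0 : ℝ) ≤ c := Nat.cast_nonneg _
  rw [hu] at h hu1 ⊢
  have e1 : u + ((c : ℝ) + 1) - (c + 1) = u := by ring
  rw [e1] at h hu1 ⊢
  have hpos : (0 : ℝ) < u + (c + 1) + 1 + H := by linarith
  refine le_of_mul_le_mul_right (h.trans ?_) hpos
  have e2 : (u * (u + 1) + 2 * c + 1 + (3 * c + 1) * H) * (u + (c + 1) + 1 + H) -
      (u + (c + 1)) * (u * (u + (c + 1) - c) + H * (u + (c + 1) + c) + (u + (c + 1))) =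
      ((c + 1) ^ 2 + (c + 1) - 1) + ((c + 1) ^ 2 + 4 * (c + 1) - 3) * H + (3 * c + 1) * H ^ 2 := by
    ring
  have h3 : 0 ≤ ((c : ℝ) + 1) ^ 2 + (c + 1) - 1 := by nlinarith
  have h4 : 0 ≤ (((c : ℝ) + 1) ^ 2 + 4 * (c + 1) - 3) * H := mul_nonneg (by nlinarith) hh
  have h5 : 0 ≤ (3 * (c : ℝ) + 1) * H ^ 2 := by positivity
  linarith

end Pool.Agent.H19.Chn
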